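import Mathlib
import Pool.Agent.Lib.helper22.Plank

set_option autoImplicit false

namespace Pool.Agent.Results.MP_65e89e_gt.Counterexample

open H22T

theorem result : ∃ (X : Type 1) (_ : TopologicalSpace X),
    CompactSpace X ∧ T2Space X ∧ ¬ SetSelfTietze X :=
  ⟨Plank, inferInstance, inferInstance, inferInstance, not_plank⟩

end Pool.Agent.Results.MP_65e89e_gt.Counterexample
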